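import Pool.Agent.K3L.Main

/-!
# The longest chain constant in dimension three is larger than 2.08
-/

set_option autoImplicit false

namespace Pool.Agent.Results.MP_79568f_pr.LowerBound

open MeasureTheory Filter Topology ProbabilityTheory
open scoped ENNReal

/-- Let `X₀, X₁, …` be independent and uniformly distributed in the unit cube `[0,1]³`, and let
`L(n)` be the length of a longest chain of `X₀, …, X_{n-1}` for the coordinatewise strict order.
Then `P(L(n) ≥ 2.08 n^{1/3})` does not tend to `0`; and if `L(n)/n^{1/3}` converges in probability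
to a constant `K`, then `K > 2.08`. -/
theorem result {Ω : Type*} [MeasurableSpace Ω] (μ : Measure Ω) [IsProbabilityMeasure μ]
    (X : ℕ → Ω → Fin 3 → ℝ) (hX : ∀ i, Measurable (X i))
    (hunif : ∀ i, μ.map (X i) = (volume : Measure (Fin 3 → ℝ)).restrict (Set.Icc 0 1))
    (hindep : iIndepFun X μ) :
    (¬ Tendsto (fun n : ℕ => μ {ω | 2.08 * (n : ℝ) ^ ((1 : ℝ) / 3) ≤
        (K3L.longest3 (fun i : Fin n => X i ω) : ℝ)}) atTop (𝓝 0)) ∧
    ∀ K : ℝ, (∀ ε : ℝ, 0 < ε → Tendsto (fun n : ℕ => μ {ω | ε <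
        |(K3L.longest3 (fun i : Fin n => X i ω) : ℝ) / (n : ℝ) ^ ((1 : ℝ) / 3) - K|})
          atTop (𝓝 0)) → 2.08 < K := by
  obtain ⟨P, hP⟩ := K3L.num_proof
  exact ⟨K3L.not_tendsto P (by norm_num) hP hX hunif hindep,
    fun K hK => K3L.lt_of_limit P (by norm_num) hP hX hunif hindep hK⟩

end Pool.Agent.Results.MP_79568f_pr.LowerBound
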