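import Pool.Agent.Helper3.K3.HS
import Pool.Agent.Helper3.K3.Iid

/-!
# The longest chain constant in dimension three is at most 2.537
-/

set_option autoImplicit false

namespace Pool.Agent.Results.MP_79568f_pr.UpperBound

open MeasureTheory Filter Topology ProbabilityTheory
open scoped ENNReal

/-- Numerics: `6 < 2.537 (log 8 - (1/2) log 0.5642)`. -/
lemma numeric : (6 : ℝ) < 2.537 * (-Real.log (√(0.5642 : ℝ) / 8)) := by
  have h1 : Real.log (√(0.5642 : ℝ) / 8) = Real.log 0.5642 / 2 - 3 * Real.log 2 := by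
    rw [Real.log_div (by positivity) (by norm_num), Real.log_sqrt (by norm_num),
      show (8 : ℝ) = 2 ^ 3 by norm_num, Real.log_pow]
    norm_num
  have h2 : 40 * Real.log 0.5642 + 33 * Real.log 2 ≤ 0 := by
    have h3 : Real.log ((0.5642 : ℝ) ^ 40 * 2 ^ 33) ≤ 0 :=
      Real.log_nonpos (by positivity) (by norm_num)
    rw [Real.log_mul (by positivity) (by positivity), Real.log_pow, Real.log_pow] at h3
    exact_mod_cast h3
  have h4 := Real.log_two_gt_d9
  rw [h1]
  linarith

/-- Let `X₀, X₁, …` be independent and uniformly distributed in the unit cube `[0,1]³`, and let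
`L(n)` be the length of a longest chain of `X₀, …, X_{n-1}` for the coordinatewise strict order.
Then `P(L(n) ≥ 2.537 n^{1/3}) → 0`; hence if `L(n)/n^{1/3}` converges in probability to a constant
`K`, then `K ≤ 2.537`. -/
theorem result {Ω : Type*} [MeasurableSpace Ω] (μ : Measure Ω) [IsProbabilityMeasure μ]
    (X : ℕ → Ω → Fin 3 → ℝ) (hX : ∀ i, Measurable (X i))
    (hunif : ∀ i, μ.map (X i) = (volume : Measure (Fin 3 → ℝ)).restrict (Set.Icc 0 1))
    (hindep : iIndepFun X μ) :
    Tendsto (fun n : ℕ => μ {ω | 2.537 * (n : ℝ) ^ ((1 : ℝ) / 3) ≤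
        (Helper3.K3.longest (fun i : Fin n => X i ω) : ℝ)}) atTop (𝓝 0) ∧
    ∀ K : ℝ, (∀ ε : ℝ, 0 < ε → Tendsto (fun n : ℕ => μ {ω | ε <
        |(Helper3.K3.longest (fun i : Fin n => X i ω) : ℝ) / (n : ℝ) ^ ((1 : ℝ) / 3) - K|})
          atTop (𝓝 0)) → K ≤ 2.537 := by
  have h := Helper3.K3.main (κ := 2.537) Helper3.K3.hs (by norm_num) (by norm_num) numeric
    hX hunif hindep
  exact ⟨h, fun K hK => Helper3.K3.le_of_tendsto h hK⟩

end Pool.Agent.Results.MP_79568f_pr.UpperBound
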